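import Pool.Agent.Lib.WP34.ExAll

/-! An explicit primitive recursive procedure solves the word problem in all Artin groups. -/

namespace Pool.Agent.Results.MP_a1ec0a_al.Explicit

open Pool.Agent.WP34.Ex

/-- The alternating word `s t s ⋯` of length `m` that begins with `s`. -/
def alt {S : Type} (s t : S) : ℕ → List S
  | 0 => []
  | m + 1 => s :: alt t s m

/-- The Artin relators of a Coxeter matrix (the entry `0` stands for `∞`). -/
def artinRels {S : Type} (M : CoxeterMatrix S) : Set (FreeGroup S) :=
  {r | ∃ s t, s ≠ t ∧ M s t ≠ 0 ∧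
    r = ((alt s t (M s t)).map FreeGroup.of).prod * (((alt t s (M s t)).map FreeGroup.of).prod)⁻¹}

theorem alt_eq {S : Type} (s t : S) (m : ℕ) : alt s t m = H51.alt s t m := by
  induction m generalizing s t with
  | zero => rfl
  | succ m ih => rw [alt, ih, H51.alt]

theorem result : Computable₂ wp ∧
    ∀ (n : ℕ) (M : CoxeterMatrix (Fin n)) (w : List (Fin n × Bool)),
      (wp (List.ofFn fun s => List.ofFn fun t => M s t) (w.map fun l => (l.1.val, l.2)) = true ↔
        PresentedGroup.mk (artinRels M) (FreeGroup.mk w) = 1) := by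
  refine ⟨wp_primrec.to_comp, fun n M w => ?_⟩
  rw [show artinRels M = H51.artinRel M by simp only [artinRels, H51.artinRel, alt_eq]]
  exact wp_correct n M w

end Pool.Agent.Results.MP_a1ec0a_al.Explicit
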